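import Mathlib
import Pool.Agent.W5h23.G.Benf

set_option autoImplicit false

/-!
# Benford's law for the cycles of the maps `T_{a,b}`

The elements of a cycle of `T_{a,b}` (`a` an odd prime, `b` odd; for instance the `3x+1` and the `5x+1`
map) all of whose elements have absolute value at least `N ≥ |b|` are distributed in base `a` according
to Benford's law, up to a relative error which tends to zero with `|b| / N`, uniformly in `b`.

Proof: along `q` consecutive elements the numbers `log_a |T ^ t x| + t log_a 2` are constant modulo `1`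
up to `O(q |b| / N)`; if `q` is the denominator of a convergent of `log_a 2` the multiples of `log_a 2`
are well distributed, and lower bounds for linear forms in `log 2` and `log a` provide suitable `q`.
The average over all starting points in the cycle gives the result.
-/

namespace Pool.Agent.Results.MP_dee342_nt.BenfordLaw

/-- The map `T_{a,b}` on the integers. -/
def T (a b x : ℤ) : ℤ := if x % 2 = 0 then x / 2 else (a * x + b) / 2

/-- `Z` is a cycle of `T_{a,b}`. -/
def IsCycle (a b : ℤ) (Z : Finset ℤ) : Prop :=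
  ∃ (x : ℤ) (p : ℕ), 1 ≤ p ∧ (T a b)^[p] x = x ∧ Z = (Finset.range p).image fun i => (T a b)^[i] x

/-- The difference between the number of `x ∈ Z` such that the fractional part of `log_a |x|` is in
`[A, B)` and `(B - A) |Z|`. -/
noncomputable def excess (a : ℕ) (Z : Finset ℤ) (A B : ℝ) : ℝ :=
  ((Z.filter fun x : ℤ => A ≤ Int.fract (Real.logb a |(x : ℝ)|) ∧
    Int.fract (Real.logb a |(x : ℝ)|) < B).card : ℝ) - (B - A) * Z.card

/-- Let `a` be an odd prime. There are `C` and `c > 0` such that for all odd `b`, all cycles `Z` of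
`T_{a,b}` and all `N ≥ |b|` such that all elements of `Z` have absolute value at least `N`, the number
of `x ∈ Z` for which the fractional part of `log_a |x|` is in `[A, B)` differs from `(B - A) |Z|` by at
most `C |Z| exp (- c sqrt (log (N / |b|)))`, for all `0 ≤ A ≤ B ≤ 1`; and if `a = 3`, by at most
`C |Z| (|b| / N) ^ (1/14)`. -/
theorem result (a : ℕ) (ha : a.Prime) (ha2 : a ≠ 2) : ∃ C c : ℝ, 0 < c ∧
    ∀ b : ℤ, b % 2 = 1 → ∀ Z : Finset ℤ, IsCycle a b Z → ∀ N : ℝ, |(b : ℝ)| ≤ N →
    (∀ x ∈ Z, N ≤ |(x : ℝ)|) → ∀ A B : ℝ, 0 ≤ A → A ≤ B → B ≤ 1 →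
    |excess a Z A B| ≤ C * Z.card * Real.exp (-(c * √(Real.log (N / |(b : ℝ)|)))) ∧
    (a = 3 → |excess a Z A B| ≤ C * Z.card * (|(b : ℝ)| / N) ^ (1 / 14 : ℝ)) := by
  obtain ⟨C1, c, hC10, hc, h1⟩ := Pool.Agent.W5h23.G.benford_cycles_prime ha ha2
  obtain ⟨C2, hC20, h2⟩ := Pool.Agent.W5h23.G.benford_cycles3
  refine ⟨C1 + C2, c, hc, ?_⟩
  intro b hb Z hZ N hN hmin A B hA hAB hB
  have hZ' : Pool.Agent.TH926.OSG.IsCycle a b Z := hZ
  have hcard : (0 : ℝ) ≤ Z.card := Nat.cast_nonneg _
  have e : ∀ a' : ℤ, (a' : ℝ) = (a : ℝ) → (Z.filter fun x : ℤ =>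
      A ≤ Int.fract (Real.logb a |(x : ℝ)|) ∧ Int.fract (Real.logb a |(x : ℝ)|) < B) =
        (Z.filter fun x => Pool.Agent.W5h23.G.Man a' A B x) := by
    intro a' ha'
    apply Finset.filter_congr
    intro x _
    unfold Pool.Agent.W5h23.G.Man
    rw [ha']
  refine ⟨?_, ?_⟩
  · have h := h1 b hb Z hZ' N hN hmin A B hA hAB hB
    unfold excess
    rw [e a (by push_cast; rfl)]
    refine h.trans ?_
    have h3 : 0 ≤ C2 * (Z.card * Real.exp (-(c * √(Real.log (N / |(b : ℝ)|))))) :=
      mul_nonneg hC20.le (mul_nonneg hcard (Real.exp_pos _).le)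
    linarith
  · intro ha3
    subst ha3
    have h := h2 b hb Z hZ' N hN hmin A B hA hAB hB
    unfold excess
    rw [e 3 (by push_cast; rfl)]
    refine h.trans ?_
    have h4 : 0 ≤ (|(b : ℝ)| / N) ^ (1 / 14 : ℝ) := by
      apply Real.rpow_nonneg
      exact div_nonneg (abs_nonneg _) ((abs_nonneg _).trans hN)
    have h3 : 0 ≤ C1 * (Z.card * (|(b : ℝ)| / N) ^ (1 / 14 : ℝ)) :=
      mul_nonneg hC10.le (mul_nonneg hcard h4)
    linarith

end Pool.Agent.Results.MP_dee342_nt.BenfordLaw
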