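import Mathlib
import Pool.Agent.W5h45.RC.R2
import Pool.Agent.W5h45.RC.R3

/-!
# The law of the denominators of the rational cycles of the `a x + 1` maps

Let `a ≥ 3` be odd, and let `T` be the `a x + 1` map on the rational numbers with odd denominator,
`T x = x / 2` if the numerator of `x` is even and `T x = (a x + 1) / 2` if it is odd. For each `L ≥ 1` there
are exactly `2 ^ L` rational `x` with `T^L x = x`, one for each word of parities of length `L`; those with `o`
odd terms among `x, T x, …, T^(L-1) x` have the form `x = c / (2 ^ L - a ^ o)` with an integer `c` that depends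
on the word. The integer cycles are the rational ones with denominator `1`, i.e. those for which
`D = |2 ^ L - a ^ o|` divides `c`. The usual heuristic for their number (and for the finiteness conjecture)
treats `c` as a random integer modulo `D`. (The `x` with denominator `b` correspond to the periodic points
`b x`, prime to `b`, of the map `T_{a,b}` on the integers.)

We prove that for the denominators this heuristic is right, for all but a negligible part of the rational
cycles, in each class given by `L` and `o`: the total variation distance between the law of the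
denominator of `x`, when `x` is chosen at random in the class, and the law of the denominator of the
fraction `u / D` with `u` random modulo `D`, is `O((log L) ^ (-K))` for each `K`, uniformly for
`ε L ≤ o ≤ (1 - ε) L`. So the proportion of the `x` of the class with denominator `b` is `φ(b) / D` up to
errors the sum of which over all divisors `b` of `D` is at most `(log L) ^ (-K)`; for instance the proportion of
those with the largest possible denominator `D` is `φ(D) / D + O((log L) ^ (-K))`, and almost all
have a denominator greater than `D / h(L)` if `h(L)` grows faster than each power of `L`. No denominator is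
excluded: the classes include the critical ones, with `o / L` close to `log 2 / log a`, and for `a = 3` and `a = 5`
all integer cycles except `{0}` and `{-1}` belong to the classes considered (`integer_classes` below).

The proof. (A) Exponential sums over the numerators of the words of a class: they are estimated with
a submultiplicative inequality for the sums of the absolute values over all classes, with tilted weights. In a
block of pairs of letters the mixed pairs give a product of factors `|cos (π θ_i)|`, and if
all `θ_i` were near integers, their distances to the nearest integers would have to grow or decay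
geometrically through the block, which is impossible if the number of odd letters of the block is not
critical. So the numerators of the class are equidistributed modulo all `m ≤ exp ((log L)^K)` prime to `2 a`.
(B) For larger moduli a counting argument gives an upper bound. (C) A sieve (Bonferroni's inequalities and Rankin's
trick) turns this into the law of the greatest common divisor of `c` and `D`.
-/

set_option autoImplicit false

namespace Pool.Agent.Results.MP_dee342_nt.LawOfDenominators

open Filter

/-- the `a x + 1` map on the rational numbers -/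
def T (a : ℕ) (x : ℚ) : ℚ := if Even x.num then x / 2 else (a * x + 1) / 2

/-- the number of the odd terms (i.e. of the terms with odd numerator) among `x, T x, …, T^(L-1) x` -/
def odds (a L : ℕ) (x : ℚ) : ℕ := ((Finset.range L).filter (fun i => Odd ((T a)^[i] x).num)).card

/-- `|2 ^ L - a ^ o|` -/
def D (a L o : ℕ) : ℕ := ((2 : ℤ) ^ L - (a : ℤ) ^ o).natAbs

/-- all integer cycles of `T_3` and `T_5` except `{0}` and `{-1}` belong to classes with
`L / 3 ≤ o ≤ 3 L / 4` -/
theorem integer_classes {a : ℕ} (ha : a = 3 ∨ a = 5) {x : ℤ} (hx0 : x ≠ 0) (hx1 : x ≠ -1)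
    {L : ℕ} (hx : (T a)^[L] (x : ℚ) = x) :
    L ≤ 3 * odds a L (x : ℚ) ∧ 4 * odds a L (x : ℚ) ≤ 3 * L :=
  Pool.Agent.W5h45.RC.integer_classes ha hx0 hx1 hx

/-- Let `a ≥ 3` be odd, `ε > 0` and `K` an integer. For all large `L` and all `o` with
`ε L ≤ o ≤ (1 - ε) L` let `P` be the set of the rational numbers `x` with odd denominator, `T^L x = x` and `o`
odd terms among `x, T x, …, T^(L-1) x`. The denominator of each `x` in `P` divides `D = |2 ^ L - a ^ o|`, and
the sum over the divisors `b` of `D` of the differences between the proportion of the `x` in `P` with denominator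
`b` and `φ(b) / D` is at most `(log L) ^ (-K)`. -/
theorem result (a : ℕ) (ha : 3 ≤ a) (hodd : Odd a) (ε : ℝ) (hε : 0 < ε) (K : ℕ) :
    ∃ L₀ : ℕ, ∀ L ≥ L₀, ∀ o : ℕ, ε * L ≤ o → (o : ℝ) ≤ (1 - ε) * L →
      ∃ P : Finset ℚ, (∀ x, x ∈ P ↔ Odd x.den ∧ (T a)^[L] x = x ∧ odds a L x = o) ∧
        P.card = L.choose o ∧ (∀ x ∈ P, x.den ∣ D a L o) ∧
        ∑ b ∈ (D a L o).divisors,
          |((P.filter (fun x => x.den = b)).card : ℝ) / P.card - (Nat.totient b : ℝ) / D a L o|
          ≤ 1 / (Real.log L) ^ K := by
  have h := Pool.Agent.W5h45.RC.gcd_law ha hodd hε K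
  obtain ⟨L₀, hL₀⟩ := Filter.eventually_atTop.1 (h.and (eventually_ge_atTop 1))
  refine ⟨L₀, fun L hL o ho1 ho2 => ?_⟩
  obtain ⟨h1, hL1⟩ := hL₀ L hL
  refine ⟨Pool.Agent.W5h45.RC.PP a L o, fun x => Pool.Agent.W5h45.RC.mem_PP hodd hL1 x,
    Pool.Agent.W5h45.RC.card_PP hodd hL1,
    fun x hx => Pool.Agent.W5h45.RC.den_dvd_PP hodd hL1 hx, ?_⟩
  have h2 := h1 o ho1 ho2
  have hD0 : Pool.Agent.W5h45.RC.DD a L o ≠ 0 := Pool.Agent.W5h45.RC.DD_ne_zero hodd hL1 o
  have h3 : ∑ b ∈ (D a L o).divisors,
      |(((Pool.Agent.W5h45.RC.PP a L o).filter (fun x => x.den = b)).card : ℝ)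
        / (Pool.Agent.W5h45.RC.PP a L o).card - (Nat.totient b : ℝ) / D a L o|
      = ∑ k ∈ (Pool.Agent.W5h45.RC.DD a L o).divisors,
        |Pool.Agent.W5h45.RC.gl (Pool.Agent.W5h45.RC.Wo L o) (Pool.Agent.W5h45.RC.cw a)
          (Pool.Agent.W5h45.RC.DD a L o) k
        - (Nat.totient (Pool.Agent.W5h45.RC.DD a L o / k) : ℝ)
          / (Pool.Agent.W5h45.RC.DD a L o : ℕ)| := by
    change ∑ b ∈ (Pool.Agent.W5h45.RC.DD a L o).divisors, _ = _
    rw [← Nat.sum_div_divisors]
    refine Finset.sum_congr rfl fun k hk => ?_
    rw [Nat.mem_divisors] at hk
    have hdiv : Pool.Agent.W5h45.RC.DD a L o / k ∣ Pool.Agent.W5h45.RC.DD a L o :=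
      Nat.div_dvd_of_dvd hk.1
    rw [Pool.Agent.W5h45.RC.law_PP hodd hL1 hdiv, Nat.div_div_self hk.1 hD0]
    rfl
  rw [h3]
  exact h2

end Pool.Agent.Results.MP_dee342_nt.LawOfDenominators
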