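import Mathlib
import Pool.Agent.W5h23.G.Code

set_option autoImplicit false

/-!
# The parity words of the cycles of `T_{a,b}` cannot be compressed

Let `Y` be the set of the elements of a cycle `Z` of `T_{a,b}` which lie in `[-X, X]`. Then every binary
code for the words of length `n` (with arbitrary real code word lengths which satisfy Kraft's inequality)
gives the parity words of the elements of `Z` a mean length of at least
`(|Y| / |Z|) log_2 |Y| / J`, where `J` is the number of words of length `n` which have to be put together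
to have `2 ^ (J n) > 2 X`. If `Y = Z` this says that the empirical entropy per letter is at least
`log |Z| / log (2 X)` (up to rounding), on all scales, uniformly in `a` and `b`. For example, for `n = 1`
it bounds the entropy of the proportion of the odd elements; the code for words with few changes of
parity gives `|Z| log |Z| ≤ 2 c J (1 + log (|Z| / (2 c)))` for cycles with `c` circuits; and the codes
which are short on a set `W` of `2 ^ (h n)` words show that there is a positive proportion of elements the
words of which are not in `W`, when `|Y| ≥ δ |Z|`, `X ≤ |Z| ^ C` and `h` is small in terms of `C, δ`.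

Proof: the parity words of length `J n` of the elements of `Y` are different, and the product of `J`
copies of the code is a code for them; the map is a bijection of the cycle.
-/

namespace Pool.Agent.Results.MP_dee342_nt.NoCompression

/-- The map `T_{a,b}` on the integers: `x / 2` for even `x`, `(a x + b) / 2` for odd `x`. -/
def T (a b x : ℤ) : ℤ := if x % 2 = 0 then x / 2 else (a * x + b) / 2

/-- `Z` is a cycle of `T_{a,b}`. -/
def IsCycle (a b : ℤ) (Z : Finset ℤ) : Prop :=
  ∃ (x : ℤ) (p : ℕ), 1 ≤ p ∧ (T a b)^[p] x = x ∧ Z = (Finset.range p).image fun i => (T a b)^[i] x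

/-- The parity word `x mod 2, T x mod 2, ..., T ^ (n-1) x mod 2` of length `n` of `x`. -/
def word (a b : ℤ) (n : ℕ) (x : ℤ) : Fin n → ℤ := fun j => (T a b)^[(j : ℕ)] x % 2

/-- `ℓ w ≥ 0`, `w` in `{0, 1} ^ n`, satisfy Kraft's inequality: the sum of `2 ^ (-ℓ w)` is at most `1`
(as for the code word lengths of a uniquely decodable binary code for the words of length `n`). -/
def IsCode (n : ℕ) (ℓ : (Fin n → ℤ) → ℝ) : Prop :=
  (∀ w, 0 ≤ ℓ w) ∧ ∑ w ∈ Fintype.piFinset (fun _ : Fin n => ({0, 1} : Finset ℤ)), (2 : ℝ) ^ (-ℓ w) ≤ 1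

/-- Let `a ≥ 3` and `b` be odd integers and let `Z` be a cycle of `T_{a,b}`. Let `X` be real, let `Y` be
the set of the elements of `Z` of absolute value at most `X`, and let `2 ^ (J n) > 2 X`. Then for every
code for the words of length `n` the sum of the code word lengths of the parity words of the elements
of `Z` is at least `|Y| log_2 |Y| / J`. -/
theorem result (a b : ℤ) (ha : a % 2 = 1) (ha3 : 3 ≤ a) (hb : b % 2 = 1) (Z : Finset ℤ)
    (hZ : IsCycle a b Z) (X : ℝ) (n J : ℕ) (hJ : 2 * X < 2 ^ (J * n)) (ℓ : (Fin n → ℤ) → ℝ)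
    (hℓ : IsCode n ℓ) :
    ((Z.filter fun x : ℤ => |(x : ℝ)| ≤ X).card : ℝ) *
        Real.logb 2 (Z.filter fun x : ℤ => |(x : ℝ)| ≤ X).card ≤
      J * ∑ x ∈ Z, ℓ (word a b n x) := by
  have hl2 : 0 < Real.log 2 := Real.log_pos (by norm_num)
  have hpow : ∀ u : ℝ, (2 : ℝ) ^ (-u) = Real.exp (-(Real.log 2 * u)) := by
    intro u
    rw [Real.rpow_def_of_pos (by norm_num)]
    congr 1
    ring
  have h1 := Pool.Agent.W5h23.G.code_cycle ⟨ha, ha3, hb⟩ hZ hJ (fun w => Real.log 2 * ℓ w)
    (fun w _ => mul_nonneg hl2.le (hℓ.1 w)) (by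
      have h2 := hℓ.2
      simp_rw [hpow] at h2
      exact h2)
  rw [← Finset.mul_sum] at h1
  rw [Real.logb, ← mul_div_assoc, div_le_iff₀ hl2]
  refine h1.trans (le_of_eq ?_)
  have e : (∑ x ∈ Z, ℓ (Pool.Agent.W5h23.G.wd (Pool.Agent.TH926.OSG.T a b) n x)) =
      ∑ x ∈ Z, ℓ (word a b n x) := rfl
  rw [e]
  ring

end Pool.Agent.Results.MP_dee342_nt.NoCompression
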