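import Mathlib
import Pool.Agent.W5h88.BP.Prm

set_option autoImplicit false

/-!
# Benford's law at polynomial times and at prime times

Let `a` be an odd prime, `b` odd. Along a trajectory `x, T x, T² x, …` of the map `T_{a,b}` with different
terms, in particular along a cycle, the base `a` mantissas of the terms are equidistributed. Here this is
proved for sparse sets of times: for prime times, and jointly for several polynomial times
`P_1(j), …, P_r(j)`; the mantissas at such times are independent as soon as no nontrivial integer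
combination of the polynomials is constant.

Proof: modulo `1` the numbers `log_a |T ^ t x| + t log_a 2` change by `O(|b| / |T ^ t x|)` in one step, and
the terms are different integers, so their total variation up to time `K` is `O(|b| log K)`. Partial
summation reduces the exponential sums to Weyl sums of polynomials, respectively sums over primes, with
coefficient a multiple of `log_a 2`; the multiples of `log_a 2` are badly approximable by lower bounds for
linear forms in two logarithms.
-/

namespace Pool.Agent.Results.MP_dee342_nt.SparseTimes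

open Polynomial

/-- The map `T_{a,b}` on the integers. -/
def T (a b x : ℤ) : ℤ := if x % 2 = 0 then x / 2 else (a * x + b) / 2

/-- `Z` is a cycle of `T_{a,b}`. -/
def IsCycle (a b : ℤ) (Z : Finset ℤ) : Prop :=
  ∃ (x : ℤ) (p : ℕ), 1 ≤ p ∧ (T a b)^[p] x = x ∧ Z = (Finset.range p).image fun i => (T a b)^[i] x

/-- The integers `x, T x, …, T ^ (K - 1) x` are distinct, for `T = T_{a,b}`. -/
def Distinct (a b x : ℤ) (K : ℕ) : Prop :=
  ∀ i j : ℕ, i < K → j < K → (T a b)^[i] x = (T a b)^[j] x → i = j

/-- The fractional part of `log_a |T ^ n x|` is in `[A, B)`. -/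
def Mant (a : ℕ) (b x : ℤ) (n : ℕ) (A B : ℝ) : Prop :=
  A ≤ Int.fract (Real.logb a |(((T a b)^[n] x : ℤ) : ℝ)|) ∧
    Int.fract (Real.logb a |(((T a b)^[n] x : ℤ) : ℝ)|) < B

/-- The value `P(j)` as a natural number. -/
def val (P : ℤ[X]) (j : ℕ) : ℕ := (P.eval (j : ℤ)).toNat

open Classical in
/-- The difference between the number of `j < J` such that for all `i` the fractional part of
`log_a |T ^ (P_i(j)) x|` is in `[A_i, B_i)`, and `J ∏ (B_i - A_i)`. -/
noncomputable def polyExcess (a : ℕ) (b x : ℤ) {r : ℕ} (P : Fin r → ℤ[X]) (J : ℕ)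
    (A B : Fin r → ℝ) : ℝ :=
  (((Finset.range J).filter fun j => ∀ i, Mant a b x (val (P i) j) (A i) (B i)).card : ℝ) -
    J * ∏ i, (B i - A i)

open Classical in
/-- The difference between the number of primes `p ≤ N` such that the fractional part of
`log_a |T ^ p x|` is in `[A, B)`, and `(B - A) π(N)`. -/
noncomputable def primeExcess (a : ℕ) (b x : ℤ) (N : ℕ) (A B : ℝ) : ℝ :=
  (((Finset.range (N + 1)).filter fun p => p.Prime ∧ Mant a b x p A B).card : ℝ) -
    Nat.primeCounting N * (B - A)

theorem distinct_cycle {a b : ℤ} {Z : Finset ℤ} (hZ : IsCycle a b Z) {x : ℤ} (hx : x ∈ Z) :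
    Distinct a b x Z.card := by
  obtain ⟨y, p, hp, hy, rfl⟩ := hZ
  obtain ⟨k, hk, rfl⟩ := Finset.mem_image.1 hx
  rw [Finset.mem_range] at hk
  set f := T a b with hf
  have hper : Function.IsPeriodicPt f p (f^[k] y) := by
    show f^[p] (f^[k] y) = f^[k] y
    rw [← Function.iterate_add_apply, add_comm, Function.iterate_add_apply, hy]
  set n := Function.minimalPeriod f (f^[k] y) with hn
  have hn0 : 0 < n := hper.minimalPeriod_pos (by omega)
  have hcard : ((Finset.range p).image fun i => f^[i] y).card ≤ n := by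
    have hsub : ((Finset.range p).image fun i => f^[i] y) ⊆
        (Finset.range n).image fun i => f^[i] (f^[k] y) := by
      intro z hz
      obtain ⟨j, _, rfl⟩ := Finset.mem_image.1 hz
      rw [Finset.mem_image]
      refine ⟨(j + (p - k)) % n, Finset.mem_range.2 (Nat.mod_lt _ hn0), ?_⟩
      rw [Function.iterate_mod_minimalPeriod_eq, ← Function.iterate_add_apply]
      rw [show j + (p - k) + k = j + p by omega, Function.iterate_add_apply, hy]
    refine (Finset.card_le_card hsub).trans (Finset.card_image_le.trans ?_)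
    rw [Finset.card_range]
  intro i j hi hj hij
  exact Function.iterate_injOn_Iio_minimalPeriod (f := f) (x := f^[k] y)
    (show i < n by omega) (show j < n by omega) hij

/-- Let `a` be an odd prime.
(1) Let `P_1, …, P_r` be polynomials with integer coefficients, nondecreasing and nonnegative on the
natural numbers, such that no nontrivial integer combination of them is constant. There are `C` and
`c > 0` such that for all odd `b`, all `x` such that `x, T x, …, T ^ (K - 1) x` are distinct
(`T = T_{a,b}`), all `J` with `P_i(j) < K` for `j < J` and all `0 ≤ A_i ≤ B_i ≤ 1`: the number of `j < J`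
for which the fractional part of `log_a |T ^ (P_i(j)) x|` is in `[A_i, B_i)` for all `i` differs from
`J ∏ (B_i - A_i)` by at most `C |b| J exp (- c sqrt (log J))`, and if `a = 3` by at most
`C |b| J ^ (1 - c)`.
(2) For all `W` there is `C` such that for all odd `b`, all `x` such that `x, …, T ^ (K - 1) x` are
distinct, all `N < K` and all `0 ≤ A ≤ B ≤ 1`: the number of primes `p ≤ N` for which the fractional part
of `log_a |T ^ p x|` is in `[A, B)` differs from `(B - A) π(N)` by at most `C |b| π(N) / (log N) ^ W`.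
(3) Both apply to the elements `x` of the cycles of `T_{a,b}`, with `K` the number of elements of the
cycle. -/
theorem result (a : ℕ) (ha : a.Prime) (ha2 : a ≠ 2) :
    (∀ (r : ℕ) (P : Fin r → ℤ[X]), (∀ i, ∀ j : ℕ, 0 ≤ (P i).eval (j : ℤ)) →
      (∀ i, Monotone fun j : ℕ => (P i).eval (j : ℤ)) →
      (∀ h : Fin r → ℤ, (∑ i, C (h i) * P i).natDegree = 0 → h = 0) →
      ∃ K₀ c : ℝ, 0 < c ∧ ∀ b : ℤ, b % 2 = 1 → ∀ (x : ℤ) (K J : ℕ), Distinct a b x K →
        (∀ i, ∀ j < J, val (P i) j < K) →
        ∀ A B : Fin r → ℝ, (∀ i, 0 ≤ A i) → (∀ i, A i ≤ B i) → (∀ i, B i ≤ 1) →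
        |polyExcess a b x P J A B| ≤ K₀ * |(b : ℝ)| * J * Real.exp (-(c * √(Real.log J))) ∧
        (a = 3 → |polyExcess a b x P J A B| ≤ K₀ * |(b : ℝ)| * J * (J : ℝ) ^ (-c))) ∧
    (∀ W : ℕ, ∃ K₀ : ℝ, ∀ b : ℤ, b % 2 = 1 → ∀ (x : ℤ) (K N : ℕ), Distinct a b x K → N < K →
      ∀ A B : ℝ, 0 ≤ A → A ≤ B → B ≤ 1 →
      |primeExcess a b x N A B| ≤ K₀ * |(b : ℝ)| * Nat.primeCounting N * (1 / Real.log N ^ W)) ∧
    (∀ (b : ℤ) (Z : Finset ℤ), IsCycle a b Z → ∀ x ∈ Z, Distinct a b x Z.card) := by
  classical
  refine ⟨?_, ?_, fun b Z hZ x hx => distinct_cycle hZ hx⟩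
  · intro r P h0 hmono hind
    have hP : Pool.Agent.W5h88.BP.Times P := ⟨h0, hmono, hind⟩
    have hpe : ∀ (b x : ℤ) (J : ℕ) (A B : Fin r → ℝ), polyExcess a b x P J A B =
        ∑ j ∈ Finset.range J, ∏ i, Pool.Agent.W5h88.BP.chi (A i) (B i) (Real.logb a
          |(((Pool.Agent.TH926.OSG.T a b)^[Pool.Agent.W5h88.BP.tm P i j] x : ℤ) : ℝ)|) -
        J * ∏ i, (B i - A i) := by
      intro b x J A B
      unfold polyExcess
      congr 1
      rw [Finset.card_filter]
      push_cast
      refine Finset.sum_congr rfl fun j _ => ?_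
      unfold Pool.Agent.W5h88.BP.chi
      split_ifs with h
      · symm
        apply Finset.prod_eq_one
        intro i _
        exact if_pos (h i)
      · push Not at h
        obtain ⟨i, hi⟩ := h
        symm
        exact Finset.prod_eq_zero (Finset.mem_univ i) (if_neg hi)
    obtain ⟨C1, c1, hC1, hc1, h1⟩ := Pool.Agent.W5h88.BP.poly_prime hP ha ha2
    obtain ⟨C2, c2, hC2, hc2, h2⟩ := Pool.Agent.W5h88.BP.poly_three hP
    refine ⟨C1 + C2, min c1 c2, lt_min hc1 hc2, ?_⟩
    intro b hb x K J hdist hlt A B hA hAB hB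
    have hinj : ∀ a' : ℤ, a' = a → Set.InjOn (fun i => (Pool.Agent.TH926.OSG.T a' b)^[i] x)
        (Set.Iio K) := by
      rintro a' rfl i hi j hj hij
      exact hdist i j hi hj hij
    refine ⟨?_, ?_⟩
    · rw [hpe]
      refine (h1 b hb x K J (hinj _ rfl) hlt A B hA hAB hB).trans ?_
      have e1 : Real.exp (-(c1 * √(Real.log J))) ≤ Real.exp (-(min c1 c2 * √(Real.log J))) := by
        apply Real.exp_le_exp.2
        have := mul_le_mul_of_nonneg_right (min_le_left c1 c2) (Real.sqrt_nonneg (Real.log J))
        linarith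
      apply mul_le_mul _ e1 (Real.exp_pos _).le (by positivity)
      apply mul_le_mul_of_nonneg_right _ (Nat.cast_nonneg _)
      apply mul_le_mul_of_nonneg_right _ (abs_nonneg _)
      linarith
    · intro ha3
      subst ha3
      rw [hpe]
      have h4 := h2 b hb x K J (hinj 3 (by norm_num)) hlt A B hA hAB hB
      have e0 : ((3 : ℕ) : ℤ) = 3 := by norm_num
      have e1 : ((3 : ℕ) : ℝ) = 3 := by norm_num
      rw [e0, e1]
      refine h4.trans ?_
      rcases Nat.eq_zero_or_pos J with hJ | hJ
      · subst hJ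
        simp
      have hJ1 : (1 : ℝ) ≤ J := by exact_mod_cast hJ
      have e2 : (J : ℝ) ^ (-c2) ≤ (J : ℝ) ^ (-(min c1 c2)) := by
        apply Real.rpow_le_rpow_of_exponent_le hJ1
        have := min_le_right c1 c2
        linarith
      apply mul_le_mul _ e2 (by positivity) (by positivity)
      apply mul_le_mul_of_nonneg_right _ (Nat.cast_nonneg _)
      apply mul_le_mul_of_nonneg_right _ (abs_nonneg _)
      linarith
  · intro W
    obtain ⟨C1, hC1, h1⟩ := Pool.Agent.W5h88.BP.prime_benford ha ha2 W
    refine ⟨C1, ?_⟩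
    intro b hb x K N hdist hN A B hA hAB hB
    have h2 := h1 b hb x K N (fun i hi j hj hij => hdist i j hi hj hij) hN A B hA hAB hB
    have e1 : primeExcess a b x N A B =
        ∑ p ∈ Pool.Agent.H425R3.JL.PR N, Pool.Agent.W5h88.BP.chi A B (Real.logb a
          |(((Pool.Agent.TH926.OSG.T a b)^[p] x : ℤ) : ℝ)|) -
        (Pool.Agent.H425R3.JL.PR N).card * (B - A) := by
      unfold primeExcess
      rw [Pool.Agent.H425R3.JL.PR_card]
      congr 1
      have e2 : ((Finset.range (N + 1)).filter fun p => p.Prime ∧ Mant a b x p A B) =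
          (Pool.Agent.H425R3.JL.PR N).filter fun p => Mant a b x p A B := by
        ext p
        simp only [Pool.Agent.H425R3.JL.PR, Finset.mem_filter, Finset.mem_range, Finset.mem_Icc]
        constructor
        · rintro ⟨h3, h4, h5⟩
          exact ⟨⟨⟨h4.one_lt.le, by omega⟩, h4⟩, h5⟩
        · rintro ⟨⟨⟨h3, h4⟩, h5⟩, h6⟩
          exact ⟨by omega, h5, h6⟩
      rw [e2, Finset.card_filter]
      push_cast
      refine Finset.sum_congr rfl fun p _ => ?_
      unfold Pool.Agent.W5h88.BP.chi
      split_ifs with h3 h4 h4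
      · rfl
      · exact absurd h3 h4
      · exact absurd h4 h3
      · rfl
    rw [e1, ← Pool.Agent.H425R3.JL.PR_card]
    exact h2

end Pool.Agent.Results.MP_dee342_nt.SparseTimes
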